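import Pool.Agent.N71.RP.Stm

/-!
# RP/AA
-/

set_option autoImplicit false

namespace Pool.Agent.N441.RP.AA

open Finset Pool.Agent.N71.RP

theorem t_AA (hTWO : E_TWO) (hSMOG : E_SMOG) (hPOS : E_POS) : E_AA := by
  obtain ⟨a₀, hS⟩ := hSMOG
  obtain ⟨a, ha64, ha0⟩ : ∃ a : ℕ, 64 ≤ a ∧ a₀ ≤ a := ⟨max 64 a₀, le_max_left _ _, le_max_right _ _⟩
  obtain ⟨X₀, hX₀, hT⟩ := hTWO a (by omega)
  refine ⟨Real.exp (-(a : ℝ)) / 4, X₀, by positivity, hX₀, fun X hX f hf hg => ?_⟩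
  have hX3 : 3 ≤ X := hX₀.trans hX
  have hX3r : (3 : ℝ) ≤ X := by exact_mod_cast hX3
  have hX1 : (1 : ℝ) ≤ X := by linarith
  have hX0 : (0 : ℝ) < X := by linarith
  have hlog : 1 < Real.log X := by
    rw [Real.lt_log_iff_exp_lt hX0]
    exact Real.exp_one_lt_three.trans_le hX3r
  have hlog0 : 0 < Real.log X := by linarith
  obtain ⟨z, hz, h1⟩ := hT X hX f hf (1 - 1 / Real.log X) le_rfl (by
    have : 0 < 1 / Real.log X := by positivity
    linarith)
  have h2 := h1 ((X : ℝ) ^ a) (pow_le_pow_right₀ hX1 (by omega)) le_rfl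
  have hfl : ⌊(X : ℝ) ^ a⌋₊ = X ^ a := by
    have : ((X : ℝ) ^ a) = ((X ^ a : ℕ) : ℝ) := by push_cast; rfl
    rw [this, Nat.floor_natCast]
  have he : 1 - (1 - 1 / Real.log X) = 1 / Real.log X := by ring
  have hexp : ((X : ℝ) ^ a) ^ (1 / Real.log X) = Real.exp a := by
    rw [Real.rpow_def_of_pos (by positivity), Real.log_pow]
    congr 1
    field_simp
  rw [hfl, he, hexp] at h2
  obtain ⟨hr, -, hr1, -⟩ := hPOS f f _ hf hf
  set S := ∑ n ∈ Finset.Icc 1 (X ^ a), r2 f n * (n : ℝ) ^ (-(1 - 1 / Real.log X)) with hSd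
  have hXa : 1 ≤ X ^ a := Nat.one_le_pow _ _ (by omega)
  have hS1 : 1 ≤ S := by
    have h3 := Finset.single_le_sum (s := Finset.Icc 1 (X ^ a))
      (f := fun n : ℕ => r2 f n * (n : ℝ) ^ (-(1 - 1 / Real.log X)))
      (fun n _ => mul_nonneg (hr n) (Real.rpow_nonneg (Nat.cast_nonneg n) _))
      (Finset.mem_Icc.2 ⟨le_rfl, hXa⟩)
    simp only [hr1, Nat.cast_one, Real.one_rpow, mul_one] at h3
    exact h3
  have hS2 : 1 / 2 * (Real.log X * PP f X) ≤ S := by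
    refine ((hS a ha0 X (by omega) f f _ hf hf).1).trans ?_
    refine Finset.sum_le_sum fun n hn => ?_
    have hn1 : (1 : ℝ) ≤ n := by exact_mod_cast (Finset.mem_Icc.1 hn).1
    rw [div_eq_mul_inv, ← Real.rpow_neg_one]
    refine mul_le_mul_of_nonneg_left ?_ (hr n)
    refine Real.rpow_le_rpow_of_exponent_le hn1 ?_
    have : 0 < 1 / Real.log X := by positivity
    linarith
  have h3 := (abs_le.1 h2).2
  have h4 : z * gy f (X ^ 16) (1 - 1 / Real.log X) ≤ 0 := mul_nonpos_of_nonpos_of_nonneg hz hg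
  have h5 : 1 / (X : ℝ) ^ 8 ≤ 1 / 2 := by
    refine one_div_le_one_div_of_le two_pos ?_
    have h6 : (X : ℝ) ^ 1 ≤ (X : ℝ) ^ 8 := pow_le_pow_right₀ hX1 (by norm_num)
    rw [pow_one] at h6
    linarith
  have h6 : la f (X ^ 16) / (1 / Real.log X) * Real.exp a =
      la f (X ^ 16) * Real.log X * Real.exp a := by
    rw [div_div_eq_mul_div, div_one]
  rw [h6] at h3
  have h7 : 1 / 4 * (Real.log X * PP f X) ≤ la f (X ^ 16) * Real.log X * Real.exp a := by
    linarith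
  have h8 : 1 / 4 * PP f X ≤ la f (X ^ 16) * Real.exp a := by
    have h9 : Real.log X * (1 / 4 * PP f X) ≤ Real.log X * (la f (X ^ 16) * Real.exp a) := by
      linarith
    exact le_of_mul_le_mul_left h9 hlog0
  have h9 : Real.exp (-(a : ℝ)) * Real.exp a = 1 := by
    rw [← Real.exp_add, neg_add_cancel, Real.exp_zero]
  have h10 := mul_le_mul_of_nonneg_left h8 (Real.exp_pos (-(a : ℝ))).le
  calc Real.exp (-(a : ℝ)) / 4 * PP f X = Real.exp (-(a : ℝ)) * (1 / 4 * PP f X) := by ring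
    _ ≤ Real.exp (-(a : ℝ)) * (la f (X ^ 16) * Real.exp a) := h10
    _ = la f (X ^ 16) * (Real.exp (-(a : ℝ)) * Real.exp a) := by ring
    _ = la f (X ^ 16) := by rw [h9, mul_one]

end Pool.Agent.N441.RP.AA
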